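import Pool.Agent.W838.DC.Stm3
import Pool.Agent.W838.DC.Basic

/-! # GD: orthogonal decompositions -/

set_option autoImplicit false

namespace Pool.Agent.W585.DC

open Pool.Agent.W838.DC Pool.Agent.W838.DC.Sys

variable {V X : Type*} [AddCommGroup V] (σ : Sys V X)

/-- linear terms -/
theorem lin (y : V) (c : ℤ) (l : List V) (h : ∀ n ∈ l, c ≤ σ.ip y n) :
    c * l.length ≤ σ.ip y l.sum ∧ (σ.ip y l.sum = c * l.length → ∀ n ∈ l, σ.ip y n = c) := by
  induction l with
  | nil =>
    simp only [List.length_nil, List.sum_nil]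
    have : σ.ip y 0 = 0 := by rw [σ.ip_symm, σ.ip_zero]
    rw [this]
    simp
  | cons a t ih =>
    obtain ⟨i1, i2⟩ := ih (fun n hn => h n (List.mem_cons_of_mem _ hn))
    have ha := h a List.mem_cons_self
    rw [List.sum_cons, List.length_cons, σ.ip_add_right]
    push_cast
    constructor
    · linarith [mul_add c (t.length : ℤ) 1]
    · intro he n hn
      rw [mul_add, mul_one] at he
      rcases List.mem_cons.1 hn with rfl | hn
      · linarith
      · exact i2 (by linarith) n hn

/-- quadratic terms -/
theorem quad (l : List V) (h : l.Pairwise (fun m n => 0 ≤ σ.ip m n)) (h2 : ∀ n ∈ l, σ.ip n n = 2) :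
    2 * (l.length : ℤ) ≤ σ.ip l.sum l.sum ∧
      (σ.ip l.sum l.sum = 2 * l.length → l.Pairwise (fun m n => σ.ip m n = 0)) := by
  induction l with
  | nil =>
    simp only [List.length_nil, List.sum_nil, σ.ip_zero]
    simp
  | cons a t ih =>
    rw [List.pairwise_cons] at h
    obtain ⟨i1, i2⟩ := ih h.2 (fun n hn => h2 n (List.mem_cons_of_mem _ hn))
    have ha := h2 a List.mem_cons_self
    obtain ⟨j1, j2⟩ := lin σ a 0 t h.1
    have e : σ.ip (a :: t).sum (a :: t).sum = σ.ip a a + 2 * σ.ip a t.sum + σ.ip t.sum t.sum := by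
      rw [List.sum_cons, σ.ip_add, σ.ip_add_right, σ.ip_add_right, σ.ip_symm t.sum a]
      ring
    rw [e, List.length_cons]
    push_cast
    rw [zero_mul] at j1 j2
    constructor
    · linarith
    · intro he
      rw [List.pairwise_cons]
      exact ⟨j2 (by linarith), i2 (by linarith)⟩

/-- shorten a list with a negative product -/
theorem shorten {x : X} (l : List V) (h : ∀ n ∈ l, σ.N x n) :
    l.Pairwise (fun m n => 0 ≤ σ.ip m n) ∨
      ∃ l' : List V, (∀ n ∈ l', σ.N x n) ∧ l'.sum = l.sum ∧ l'.length < l.length := by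
  induction l with
  | nil => exact Or.inl List.Pairwise.nil
  | cons a t ih =>
    have hat : ∀ n ∈ t, σ.N x n := fun n hn => h n (List.mem_cons_of_mem _ hn)
    have ha : σ.N x a := h a List.mem_cons_self
    rcases ih hat with hp | ⟨t', h1, h2, h3⟩
    · by_cases hall : ∀ n ∈ t, 0 ≤ σ.ip a n
      · exact Or.inl (List.pairwise_cons.2 ⟨hall, hp⟩)
      · right
        push Not at hall
        obtain ⟨n, hn, hneg⟩ := hall
        have hnN := hat n hn
        have hip : σ.ip a n = -1 := by
          have := σ.ip_ge ha.1 hnN.1 ha.2.1 hnN.2.1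
          omega
        have hN : σ.N x (a + n) := by
          refine ⟨σ.add_mem ha.1 hnN.1 hip, ?_, ?_⟩
          · rw [map_add]
            have := ha.2.1
            have := hnN.2.1
            omega
          · rw [map_add, map_add]
            have := ha.2.2
            have := hnN.2.2
            omega
        obtain ⟨s, t', rfl⟩ := List.append_of_mem hn
        refine ⟨(a + n) :: (s ++ t'), ?_, ?_, ?_⟩
        · intro m hm
          rcases List.mem_cons.1 hm with rfl | hm
          · exact hN
          · refine hat m ?_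
            rw [List.mem_append] at hm ⊢
            rcases hm with hm | hm
            · exact Or.inl hm
            · exact Or.inr (List.mem_cons_of_mem _ hm)
        · simp only [List.sum_cons, List.sum_append]
          abel
        · simp only [List.length_cons, List.length_append]
          omega
    · right
      refine ⟨a :: t', ?_, ?_, ?_⟩
      · intro m hm
        rcases List.mem_cons.1 hm with rfl | hm
        · exact ha
        · exact h1 m hm
      · rw [List.sum_cons, List.sum_cons, h2]
      · simp only [List.length_cons]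
        omega

/-- a decomposition with nonnegative products -/
theorem exists_pw {x : X} : ∀ (k : ℕ) (l : List V), l.length ≤ k → (∀ n ∈ l, σ.N x n) →
    ∃ l' : List V, (∀ n ∈ l', σ.N x n) ∧ l'.sum = l.sum ∧
      l'.Pairwise (fun m n => 0 ≤ σ.ip m n) := by
  intro k
  induction k with
  | zero =>
    intro l hl hN
    have : l = [] := List.length_eq_zero_iff.1 (by omega)
    subst this
    exact ⟨[], hN, rfl, List.Pairwise.nil⟩
  | succ k ih =>
    intro l hl hN
    rcases shorten σ l hN with hp | ⟨l', h1, h2, h3⟩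
    · exact ⟨l, hN, rfl, hp⟩
    · obtain ⟨l'', g1, g2, g3⟩ := ih l' (by omega) h1
      exact ⟨l'', g1, g2.trans h2, g3⟩

theorem gd : S_GD σ := by
  intro x y z hy hz hcl
  obtain ⟨l0, hl0, hs0⟩ := AddSubmonoid.exists_list_of_mem_closure hcl
  obtain ⟨l, hl, hs, hp⟩ := exists_pw σ l0.length l0 le_rfl hl0
  rw [hs0] at hs
  have hzy : z = y + l.sum := by rw [hs]; abel
  obtain ⟨q1, q2⟩ := quad σ l hp (fun n hn => σ.ip_self n (hl n hn).1)
  obtain ⟨p1, p2⟩ := lin σ y (-1) l (fun n hn =>
    σ.ip_ge hy.1.1 (hl n hn).1 hy.1.2.1 (hl n hn).2.1)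
  have hyy := σ.ip_self y hy.1.1
  have hzz := σ.ip_self z hz.1.1
  have e : σ.ip z z = σ.ip y y + 2 * σ.ip y l.sum + σ.ip l.sum l.sum := by
    rw [hzy, σ.ip_add, σ.ip_add_right, σ.ip_add_right, σ.ip_symm l.sum y]
    ring
  rw [hyy, hzz] at e
  refine ⟨l, ⟨fun n hn => ⟨hl n hn, p2 (by linarith) n hn⟩, q2 (by linarith)⟩, hzy⟩

end Pool.Agent.W585.DC

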